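import Pool.Agent.H38.O1.N3
import Pool.Agent.H38.O2.Main

set_option autoImplicit false

/-!
The end of the noncommutative case: if `th(a, b)` fixes `b` for all `a, b`, then `x ↦ T_x` is a
homomorphism, so a simple automorphic loop is associative. Author: helper57.
-/

namespace ALoop

open Equiv

variable {Q : Type*} {G : Subgroup (Perm Q)} {L : Q → Perm Q} {J : Perm Q} {e : Q}

/-- `a(x, y) = L_{xy}⁻¹ L_x L_y` -/
def Axy (L : Q → Perm Q) (x y : Q) : Perm Q := (L (L x y))⁻¹ * L x * L y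

/-- `(v c) w = v (c w)` -/
def As (L : Q → Perm Q) (v c w : Q) : Prop := L (L v c) w = L v (L c w)

namespace AL0

theorem Axy_mem (h : AL0 G L J e) (x y : Q) : Axy L x y ∈ G :=
  G.mul_mem (G.mul_mem (G.inv_mem (h.memL _)) (h.memL _)) (h.memL _)

theorem Axy_e (h : AL0 G L J e) (x y : Q) : Axy L x y e = e := by
  unfold Axy
  simp only [Perm.mul_apply]
  rw [h.Le, Perm.inv_eq_iff_eq, h.Le]

theorem Axy_x (h : AL0 G L J e) (x y : Q) : Axy L x y x = x := by
  unfold Axy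
  simp only [Perm.mul_apply]
  rw [h.flex', Perm.inv_eq_iff_eq]

theorem L_L (x y : Q) : L x * L y = L (L x y) * Axy L x y := by
  unfold Axy; group

theorem k7_Th_b (_h : AL0 G L J e) (hK : ∀ a b, Th L J a b b = b) (a b : Q) :
    Th L J a b b = b := hK a b

theorem k7_Th_a (h : AL0 G L J e) (hK : ∀ a b, Th L J a b b = b) (a b : Q) :
    Th L J a b a = a := by
  have h1 := hK (J b) (J a)
  rw [h.Th_inv, Perm.inv_eq_iff_eq] at h1
  have h2 := h.fixJ (h.Th_mem a b) (h.Th_e a b) h1.symm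
  rwa [h.JJ] at h2

/-- `th(a, b⁻¹) = th(a, b)⁻¹` -/
theorem k7_Th_J (h : AL0 G L J e) (hK : ∀ a b, Th L J a b b = b) (a b : Q) :
    Th L J a (J b) = (Th L J a b)⁻¹ := by
  have h1 := h.K1 a b
  rw [← h.Tx_cen b _ (h.Th_mem a b) (h.Th_e a b) (hK a b)] at h1
  have h2 := mul_left_cancel h1
  rw [← h2, inv_inv]

/-- `th(b, a) = th(a, b)⁻¹` -/
theorem k7_Th_swap (h : AL0 G L J e) (hK : ∀ a b, Th L J a b b = b) (a b : Q) :
    Th L J b a = (Th L J a b)⁻¹ := by
  have h1 := h.K2 a b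
  rw [← h.Tx_cen b _ (h.Th_mem a b) (h.Th_e a b) (hK a b)] at h1
  have h2 := mul_left_cancel h1
  have h3 := h.k7_Th_J hK b (J a)
  rw [h.JJ] at h3
  rw [h3, h2]

/-- `R_{b⁻¹} = R_b⁻¹` -/
theorem k7_RJ (h : AL0 G L J e) (hK : ∀ a b, Th L J a b b = b) (b : Q) :
    Rt L J (J b) = (Rt L J b)⁻¹ := by
  have h1 : Rt L J b * Rt L J (J b) = 1 := by
    ext x
    have hc : (Rt L J b * Rt L J (J b)) * L x = L x * (Rt L J b * Rt L J (J b)) := by
      have e1 : (L x)⁻¹ * Rt L J b * L x = Rt L J b * (Th L J x b)⁻¹ := by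
        unfold Th; group
      have e2 : (L x)⁻¹ * Rt L J (J b) * L x = Rt L J (J b) * (Th L J x (J b))⁻¹ := by
        unfold Th; group
      rw [h.k7_Th_J hK, inv_inv] at e2
      have e3 := h.comR (h.Th_mem x b) (h.Th_e x b) (h.fixJ (h.Th_mem x b) (h.Th_e x b) (hK x b))
      calc (Rt L J b * Rt L J (J b)) * L x =
          L x * (((L x)⁻¹ * Rt L J b * L x) * ((L x)⁻¹ * Rt L J (J b) * L x)) := by group
        _ = L x * ((Rt L J b * (Th L J x b)⁻¹) * (Rt L J (J b) * Th L J x b)) := by rw [e1, e2]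
        _ = L x * (Rt L J b * (Th L J x b)⁻¹ * (Th L J x b * Rt L J (J b))) := by rw [e3]
        _ = _ := by group
    have he : (Rt L J b * Rt L J (J b)) e = e := by
      rw [Perm.mul_apply, h.Rt_e, h.Rt_app, h.JL]
    have h2 := congrArg (fun f : Perm Q => f e) hc
    simp only [Perm.mul_apply] at h2 he
    rw [h.Le, he, h.Le] at h2
    rw [Perm.mul_apply, Perm.one_apply]
    exact h2
  exact (inv_eq_of_mul_eq_one_right h1).symm

/-- `L_{b⁻¹} = L_b⁻¹` -/
theorem k7_LJ (h : AL0 G L J e) (hK : ∀ a b, Th L J a b b = b) (b : Q) :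
    L (J b) = (L b)⁻¹ := by
  have h1 : L (J b) = J * Rt L J b * J := (h.JRJ b).symm
  have h2 : L b = J * Rt L J (J b) * J := by
    have := h.JRJ (J b)
    rw [h.JJ] at this
    exact this.symm
  rw [h.k7_RJ hK] at h2
  have h3 : L b * L (J b) = 1 := by
    rw [h2, h1]
    calc J * (Rt L J b)⁻¹ * J * (J * Rt L J b * J) = J * (Rt L J b)⁻¹ * (J * J) * Rt L J b * J := by
          group
      _ = 1 := by rw [h.JJ1, mul_one, inv_mul_cancel_right, h.JJ1]
  exact (inv_eq_of_mul_eq_one_right h3).symm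

theorem k7_Axy_xy (h : AL0 G L J e) (hK : ∀ a b, Th L J a b b = b) (x y : Q) :
    Axy L x y (L x y) = L x y := by
  have h1 : L (J y) * L (J x) = (Axy L x y)⁻¹ * L (J (L x y)) := by
    rw [h.k7_LJ hK, h.k7_LJ hK, h.k7_LJ hK]
    unfold Axy; group
  have h2 := congrArg (fun f : Perm Q => f e) h1
  simp only [Perm.mul_apply] at h2
  rw [h.Le, h.Le, ← h.aaip] at h2
  have h3 : Axy L x y (J (L x y)) = J (L x y) := by
    conv_lhs => rw [h2]
    rw [apply_inv']
  have h4 := h.fixJ (h.Axy_mem x y) (h.Axy_e x y) h3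
  rwa [h.JJ] at h4

theorem k7_Axy_y (h : AL0 G L J e) (hK : ∀ a b, Th L J a b b = b) (x y : Q) :
    Axy L x y y = y := by
  have h1 := h.k7_Axy_xy hK x y
  rw [h.aut (h.Axy_mem x y) (h.Axy_e x y), h.Axy_x] at h1
  exact (L x).injective h1

/-- `R_{xy} = R_y R_x a(x, y)` -/
theorem k7_Rxy (h : AL0 G L J e) (hK : ∀ a b, Th L J a b b = b) (x y : Q) :
    Rt L J (L x y) = Rt L J y * Rt L J x * Axy L x y := by
  have h1 : J * Axy L x y * J = Axy L x y := by
    rw [← h.comJ _ (h.Axy_mem x y) (h.Axy_e x y), mul_assoc, h.JJ1, mul_one]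
  have h2 : J * Axy L x y * J = Rt L J (L x y) * (Rt L J x)⁻¹ * (Rt L J y)⁻¹ := by
    have e1 : J * (L (L x y))⁻¹ * J = Rt L J (L x y) := by
      rw [← h.k7_LJ hK]; rfl
    have e2 : J * L x * J = (Rt L J x)⁻¹ := by rw [h.JLJ, h.k7_RJ hK]
    have e3 : J * L y * J = (Rt L J y)⁻¹ := by rw [h.JLJ, h.k7_RJ hK]
    unfold Axy
    calc J * ((L (L x y))⁻¹ * L x * L y) * J =
        J * (L (L x y))⁻¹ * 1 * L x * 1 * L y * J := by group
      _ = J * (L (L x y))⁻¹ * (J * J) * L x * (J * J) * L y * J := by rw [h.JJ1]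
      _ = (J * (L (L x y))⁻¹ * J) * (J * L x * J) * (J * L y * J) := by group
      _ = _ := by rw [e1, e2, e3]
  rw [h1] at h2
  have c1 := h.comR (h.Axy_mem x y) (h.Axy_e x y) (h.Axy_x x y)
  have c2 := h.comR (h.Axy_mem x y) (h.Axy_e x y) (h.k7_Axy_y hK x y)
  calc Rt L J (L x y) = (Rt L J (L x y) * (Rt L J x)⁻¹ * (Rt L J y)⁻¹) * Rt L J y * Rt L J x := by
        group
    _ = Axy L x y * Rt L J y * Rt L J x := by rw [← h2]
    _ = Rt L J y * (Axy L x y * Rt L J x) := by rw [c2]; group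
    _ = _ := by rw [c1]; group

/-- (E) -/
theorem k7_E (h : AL0 G L J e) (hK : ∀ a b, Th L J a b b = b) (x y q : Q) :
    L y (Th L J y q x) = Rt L J x (Axy L x q y) := by
  have h1 : L y * Th L J y q = (Rt L J q)⁻¹ * L y * Rt L J q := by unfold Th; group
  have h2 := congrArg (fun f : Perm Q => f x) h1
  simp only [Perm.mul_apply] at h2
  rw [h2, h.Rt_app q x, ← h.Rt_app (L x q) y, h.k7_Rxy hK, Perm.mul_apply, Perm.mul_apply,
    inv_apply']

theorem As_iff_Th (h : AL0 G L J e) (v c w : Q) : As L v c w ↔ Th L J v w c = c := by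
  unfold As Th
  simp only [Perm.mul_apply]
  rw [Perm.inv_eq_iff_eq, Perm.inv_eq_iff_eq, h.Rt_app, h.Rt_app]
  exact eq_comm

theorem As_iff_A (v c w : Q) : As L v c w ↔ Axy L v c w = w := by
  unfold As Axy
  simp only [Perm.mul_apply]
  rw [Perm.inv_eq_iff_eq]
  exact eq_comm

theorem k7_cyc (h : AL0 G L J e) (hK : ∀ a b, Th L J a b b = b) {y x q : Q}
    (hA : As L y x q) : As L x q y := by
  rw [h.As_iff_Th] at hA
  rw [As_iff_A]
  have h1 := h.k7_E hK x y q
  rw [hA, ← h.Rt_app x y] at h1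
  exact ((Rt L J x).injective h1).symm

theorem k7_rev (h : AL0 G L J e) (hK : ∀ a b, Th L J a b b = b) {v c w : Q}
    (hA : As L v c w) : As L w c v := by
  rw [h.As_iff_Th] at hA ⊢
  rw [h.k7_Th_swap hK v w, Perm.inv_eq_iff_eq, hA]

theorem Nsp_As {s v : Q} (hs : Nsp L s v) (w : Q) : As L v s w := by
  unfold As
  rw [← (show L v * L s = L (L v s) from hs), Perm.mul_apply]

theorem R_T (h : AL0 G L J e) (p z : Q) : Rt L J p (Tx L J p z) = L p z := by
  have h1 : Rt L J p * Tx L J p = L p := by rw [← h.Tx_R, ← h.L_eq]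
  rw [← Perm.mul_apply, h1]

/-- (N1) -/
theorem N1 (h : AL0 G L J e) (p z : Q) :
    L ((L z)⁻¹ (Tx L J p z)) p = (Tx L J z)⁻¹ p := by
  have h1 := Nsp_As (h.N3 p z) p
  unfold As at h1
  rw [apply_inv', ← h.Rt_app, h.R_T] at h1
  -- `z (s p) = p z`
  have h2 : (Tx L J z)⁻¹ = (L z)⁻¹ * Rt L J z := by
    unfold Tx
    have hf := h.flex z
    rw [mul_inv_rev, inv_inv, eq_inv_mul_iff_mul_eq, ← mul_assoc, hf, mul_inv_cancel_right]
  rw [h2, Perm.mul_apply, h.Rt_app, h1, inv_apply']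

/-- `T` is a homomorphism -/
theorem k7_hom (h : AL0 G L J e) (hK : ∀ a b, Th L J a b b = b) (x y : Q) :
    Tx L J (L x y) = Tx L J x * Tx L J y := by
  ext z
  rw [Perm.mul_apply]
  obtain ⟨sx, hsx⟩ : ∃ sx, sx = (L z)⁻¹ (Tx L J x z) := ⟨_, rfl⟩
  obtain ⟨sy, hsy⟩ : ∃ sy, sy = (L z)⁻¹ (Tx L J y z) := ⟨_, rfl⟩
  obtain ⟨s, hs⟩ : ∃ s, s = (L z)⁻¹ (Tx L J (L x y) z) := ⟨_, rfl⟩
  have n1x := h.N1 x z
  have n1y := h.N1 y z
  have n1 := h.N1 (L x y) z
  rw [← hsx] at n1x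
  rw [← hsy] at n1y
  rw [← hs] at n1
  have n4x : ∀ w, As L x sx w := fun w => Nsp_As (hsx ▸ h.N4 x z) w
  have n4y : ∀ w, As L y sy w := fun w => Nsp_As (hsy ▸ h.N4 y z) w
  have n3x : ∀ w, As L z sx w := fun w => Nsp_As (hsx ▸ h.N3 x z) w
  have hTG := G.inv_mem (h.Tx_mem z)
  have hTe : (Tx L J z)⁻¹ e = e := by rw [Perm.inv_eq_iff_eq, h.Tx_e]
  -- `s (x y) = (sx x) (sy y)`
  have h1 : L s (L x y) = L (L sx x) (L sy y) := by
    rw [n1, n1x, n1y, h.aut hTG hTe]
  -- `= ((sx x) sy) y`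
  have h2 : L (L sx x) (L sy y) = L (L (L sx x) sy) y := by
    have := h.k7_rev hK (n4y (L sx x))
    exact this.symm
  have h3 : L (L sx x) sy = L sx (L x sy) :=
    h.k7_rev hK (h.k7_cyc hK (h.k7_cyc hK (n4x sy)))
  have h4 : L sx (L x sy) = L (L sx (Tx L J x sy)) x := by
    have h5 := h.k7_cyc hK (n4x (Tx L J x sy))
    unfold As at h5
    rw [h5, ← h.Rt_app x (Tx L J x sy), h.R_T]
  have h6 : Rt L J (L x y) s = Rt L J y (Rt L J x (L sx (Tx L J x sy))) := by
    rw [h.Rt_app, h1, h2, h3, h4, h.Rt_app, h.Rt_app]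
  rw [h.k7_Rxy hK, Perm.mul_apply, Perm.mul_apply] at h6
  have h7 := (Rt L J x).injective ((Rt L J y).injective h6)
  have a1 : Axy L x y sx = sx := (As_iff_A _ _ _).1 (h.k7_rev hK (h.k7_cyc hK (n4x y)))
  have a2 : Axy L x y sy = sy := (As_iff_A _ _ _).1 (h.k7_cyc hK (h.k7_cyc hK (n4y x)))
  have a3 : Axy L x y (Tx L J x sy) = Tx L J x sy := by
    have h8 := h.Tx_cen x _ (h.Axy_mem x y) (h.Axy_e x y) (h.Axy_x x y)
    have h9 := congrArg (fun f : Perm Q => f sy) h8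
    simp only [Perm.mul_apply] at h9
    rw [← h9, a2]
  have h8 : s = L sx (Tx L J x sy) := by
    apply (Axy L x y).injective
    rw [h7, h.aut (h.Axy_mem x y) (h.Axy_e x y), a1, a3]
  have h9 : Tx L J (L x y) z = L z s := by rw [hs, apply_inv']
  have h10 : L z sx = Tx L J x z := by rw [hsx, apply_inv']
  have h11 : L z sy = Tx L J y z := by rw [hsy, apply_inv']
  have h12 := n3x (Tx L J x sy)
  unfold As at h12
  rw [h9, h8, ← h12, h10, ← h.aut (h.Tx_mem x) (h.Tx_e x), h11]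

end AL0

/-- if `th(a, b)` fixes `b` for all `a, b`, then `Q` is associative -/
theorem AL.assoc_of_K7 [Finite Q] (h : AL G L J e) (hK : ∀ a b, Th L J a b b = b) : Assoc L := by
  have h0 := h.al0
  have hom := h0.k7_hom hK
  have hinv : ∀ g ∈ G, ∀ a b, (Tx L J a = Tx L J b ↔ Tx L J (g a) = Tx L J (g b)) := by
    intro g hg
    rw [h.gen] at hg
    induction hg using Subgroup.closure_induction with
    | mem g hg =>
      rcases hg with ⟨x, rfl⟩ | ⟨x, rfl⟩
      · intro a b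
        rw [hom, hom, mul_right_inj]
      · intro a b
        have h1 : ∀ a, (J * L x * J) a = L a (J x) := by
          intro a
          rw [h0.JLJ, h0.Rt_app]
        simp only [h1]
        rw [hom, hom, mul_left_inj]
    | one => intro a b; rfl
    | mul g g' _ _ hg hg' =>
      intro a b
      rw [Perm.mul_apply, Perm.mul_apply, ← hg, ← hg']
    | inv g _ hg =>
      intro a b
      have h1 := hg (g⁻¹ a) (g⁻¹ b)
      rw [apply_inv', apply_inv'] at h1
      exact h1.symm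
  rcases h.prim (fun a b => Tx L J a = Tx L J b) ⟨fun _ => rfl, fun h => h.symm, fun h1 h2 => h1.trans h2⟩
    (fun g hg a b hab => (hinv g hg a b).1 hab) with h1 | h1
  · intro x y z
    apply h1
    simp only [hom, mul_assoc]
  · apply h.comm_assoc
    intro q
    have h2 := h1 (J q) e
    have h3 : Tx L J e = 1 := by
      unfold Tx
      have h4 : Rt L J e = 1 := by
        unfold Rt
        rw [h.Je, h.Le1, mul_one, h.JJ1]
      rw [h.Le1, h4]; group
    rw [h3] at h2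
    have h5 := h0.L_eq (J q)
    rw [h2, one_mul] at h5
    rw [h0.JLJ, h5]

end ALoop
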